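import Pool.Agent.Helper57.NX.Defs

/-!
# Project NX: the van der Corput step with an exceptional set of shifts
-/

set_option autoImplicit false

open Finset
open scoped BigOperators ComplexConjugate

namespace Pool.Agent.Helper57.NX

noncomputable section

private theorem h82_shift (F : ℕ → ℂ) (B : ℝ) (hF : ∀ k, ‖F k‖ ≤ B) (u T j : ℕ) :
    ‖(∑ k ∈ Ico u (u + T), F (k + j)) - ∑ k ∈ Ico u (u + T), F k‖ ≤ 2 * j * B := by
  induction j with
  | zero => simp
  | succ j ih =>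
    have h1 : (∑ k ∈ Ico u (u + T), F (k + (j + 1))) - ∑ k ∈ Ico u (u + T), F (k + j) =
        F (u + T + j) - F (u + j) := by
      rw [Finset.sum_Ico_eq_sum_range, Finset.sum_Ico_eq_sum_range, Nat.add_sub_cancel_left]
      have h2 := Finset.sum_range_succ (fun i => F (u + i + j)) T
      have h3 := Finset.sum_range_succ' (fun i => F (u + i + j)) T
      have h4 : ∑ k ∈ range T, F (u + k + (j + 1)) = ∑ k ∈ range T, F (u + (k + 1) + j) :=
        Finset.sum_congr rfl fun k _ => by congr 1; ring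
      rw [h4]
      rw [h2] at h3
      simp only [add_zero] at h3
      linear_combination -h3
    have h2 : (∑ k ∈ Ico u (u + T), F (k + (j + 1))) - ∑ k ∈ Ico u (u + T), F k =
        (F (u + T + j) - F (u + j)) +
          ((∑ k ∈ Ico u (u + T), F (k + j)) - ∑ k ∈ Ico u (u + T), F k) := by
      rw [← h1]; ring
    rw [h2]
    refine (norm_add_le _ _).trans ?_
    have h3 := (norm_sub_le (F (u + T + j)) (F (u + j))).trans (add_le_add (hF _) (hF _))
    push_cast
    linarith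

private theorem h82_count (Bad : Finset ℕ) (M j : ℕ) :
    ((range M).filter fun j' => (j' - j) + (j - j') ∈ Bad).card ≤ 2 * Bad.card := by
  have h1 : ((range M).filter fun j' => (j' - j) + (j - j') ∈ Bad) ⊆
      Bad.image (fun b => j + b) ∪ Bad.image (fun b => j - b) := by
    intro x hx
    rw [Finset.mem_filter] at hx
    rw [Finset.mem_union, Finset.mem_image, Finset.mem_image]
    rcases le_total j x with h | h
    · exact Or.inl ⟨_, hx.2, by omega⟩
    · exact Or.inr ⟨_, hx.2, by omega⟩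
  refine (Finset.card_le_card h1).trans ((Finset.card_union_le _ _).trans ?_)
  have h2 := Finset.card_image_le (s := Bad) (f := fun b => j + b)
  have h3 := Finset.card_image_le (s := Bad) (f := fun b => j - b)
  omega

theorem vdc_step {N : ℕ} [NeZero N] (u T M : ℕ) (δ : ℝ) (hδ0 : 0 < δ) (hδ1 : δ ≤ 1)
    (f0 : ZMod N → ℂ) (hf0 : ∀ x, ‖f0 x‖ ≤ 1) (v : ℕ → ZMod N → ℂ) (hv : ∀ k x, ‖v k x‖ ≤ 1)
    (hM : 16 / δ ^ 2 ≤ M) (hMT : (M : ℝ) ≤ δ ^ 2 * T / 64)
    (Bad : Finset ℕ) (hBad : (Bad.card : ℝ) ≤ δ ^ 2 * M / 32)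
    (h : δ ≤ ‖𝔼 k ∈ Ico u (u + T), 𝔼 x, f0 x * v k x‖) :
    ∃ s : ℕ, 1 ≤ s ∧ s < M ∧ s ∉ Bad ∧
      δ ^ 2 / 4 ≤ ‖𝔼 k ∈ Ico u (u + T), 𝔼 x, v k x * conj (v (k + s) x)‖ := by
  by_contra hc
  push Not at hc
  have hNpos : (0 : ℝ) < N := by exact_mod_cast Nat.pos_of_ne_zero (NeZero.ne N)
  have hMpos : (0 : ℝ) < M := lt_of_lt_of_le (by positivity) hM
  have hTpos : (0 : ℝ) < T := by
    by_contra hT
    have : (T : ℝ) = 0 := le_antisymm (not_lt.mp hT) (Nat.cast_nonneg _)
    rw [this] at hMT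
    linarith
  -- averages as sums
  have hE : ∀ g : ℕ → ZMod N → ℂ, ‖𝔼 k ∈ Ico u (u + T), 𝔼 x, g k x‖ =
      ‖∑ k ∈ Ico u (u + T), ∑ x, g k x‖ / (N * T) := by
    intro g
    have h1 : ∀ k, (𝔼 x, g k x) = (∑ x, g k x) / (N : ℂ) := by
      intro k
      rw [Finset.expect_eq_sum_div_card]
      simp [ZMod.card]
    simp only [h1]
    rw [Finset.expect_eq_sum_div_card, ← Finset.sum_div, Nat.card_Ico]
    simp only [Nat.add_sub_cancel_left, norm_div, Complex.norm_natCast]
    rw [div_div]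
  -- the vectors
  set c : ℕ → ℕ → ℂ := fun a b => ∑ x, v a x * conj (v b x) with hcdef
  have hcard : (∑ _x : ZMod N, (1 : ℝ)) = N := by simp [ZMod.card]
  have hcb : ∀ a b, ‖c a b‖ ≤ N := by
    intro a b
    refine (norm_sum_le _ _).trans ?_
    rw [← hcard]
    refine Finset.sum_le_sum fun x _ => ?_
    rw [norm_mul, RCLike.norm_conj]
    exact mul_le_one₀ (hv _ _) (norm_nonneg _) (hv _ _)
  set R : ℕ → ℕ → ℂ := fun j j' => ∑ k ∈ Ico u (u + T), c (k + j) (k + j') with hR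
  have hRb : ∀ j j', ‖R j j'‖ ≤ N * T := by
    intro j j'
    refine (norm_sum_le _ _).trans ?_
    refine (Finset.sum_le_sum fun k _ => hcb _ _).trans ?_
    rw [Finset.sum_const, Nat.card_Ico, Nat.add_sub_cancel_left, nsmul_eq_mul]
    linarith [mul_comm (N : ℝ) T]
  have hRsymm : ∀ j j', ‖R j j'‖ = ‖R j' j‖ := by
    intro j j'
    have : R j j' = conj (R j' j) := by
      simp only [hR, hcdef, map_sum, map_mul, Complex.conj_conj]
      exact Finset.sum_congr rfl fun k _ => Finset.sum_congr rfl fun x _ => mul_comm _ _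
    rw [this, RCLike.norm_conj]
  have hR0 : ∀ s, 1 ≤ s → s < M → s ∉ Bad → ‖R 0 s‖ ≤ N * T * (δ ^ 2 / 4) := by
    intro s h1 h2 h3
    have h4 := hc s h1 h2 h3
    rw [hE, div_lt_iff₀ (by positivity)] at h4
    have h5 : R 0 s = ∑ k ∈ Ico u (u + T), ∑ x, v k x * conj (v (k + s) x) := rfl
    rw [h5]
    linarith
  have hRle : ∀ j j', j ≤ j' → j < M → ‖R j j'‖ ≤ ‖R 0 (j' - j)‖ + 2 * M * N := by
    intro j j' hj hjM
    have h1 := h82_shift (fun k => c k (k + (j' - j))) N (fun k => hcb _ _) u T j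
    have h2 : ∑ k ∈ Ico u (u + T), c (k + j) (k + j + (j' - j)) = R j j' :=
      Finset.sum_congr rfl fun k _ => by congr 1; omega
    have h3 : ∑ k ∈ Ico u (u + T), c k (k + (j' - j)) = R 0 (j' - j) := rfl
    have h1 : ‖(∑ k ∈ Ico u (u + T), c (k + j) (k + j + (j' - j))) -
        ∑ k ∈ Ico u (u + T), c k (k + (j' - j))‖ ≤ 2 * j * N := h1
    rw [h2, h3] at h1
    have h4 : ‖R j j'‖ ≤ ‖R 0 (j' - j)‖ + ‖R j j' - R 0 (j' - j)‖ := by
      have := norm_add_le (R 0 (j' - j)) (R j j' - R 0 (j' - j))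
      rwa [add_sub_cancel] at this
    have h5 : (2 : ℝ) * j * N ≤ 2 * M * N := by
      have : (j : ℝ) ≤ M := by exact_mod_cast hjM.le
      nlinarith
    linarith
  have hRall : ∀ j ∈ range M, ∀ j' ∈ range M, ‖R j j'‖ ≤
      (if j' = j then (N * T : ℝ) else 0) +
      (if (j' - j) + (j - j') ∈ Bad then (N * T : ℝ) else 0) +
      (N * T * (δ ^ 2 / 4) + 2 * M * N) := by
    intro j hj j' hj'
    rw [Finset.mem_range] at hj hj'
    have hp1 : (0 : ℝ) ≤ N * T := by positivity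
    have hp2 : (0 : ℝ) ≤ N * T * (δ ^ 2 / 4) + 2 * M * N := by positivity
    by_cases h1 : j' = j
    · rw [if_pos h1]
      have := hRb j j'
      split_ifs <;> linarith
    · rw [if_neg h1]
      by_cases h2 : (j' - j) + (j - j') ∈ Bad
      · rw [if_pos h2]
        have := hRb j j'
        linarith
      · rw [if_neg h2]
        rcases le_total j j' with h3 | h3
        · have h4 := hRle j j' h3 hj
          have h5 := hR0 (j' - j) (by omega) (by omega) (by
            have : (j' - j) + (j - j') = j' - j := by omega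
            rwa [this] at h2)
          linarith
        · rw [hRsymm]
          have h4 := hRle j' j h3 hj'
          have h5 := hR0 (j - j') (by omega) (by omega) (by
            have : (j' - j) + (j - j') = j - j' := by omega
            rwa [this] at h2)
          linarith
  have hRsum : ∑ j ∈ range M, ∑ j' ∈ range M, ‖R j j'‖ ≤
      M * (N * T) + M * (2 * Bad.card * (N * T)) + M * (M * (N * T * (δ ^ 2 / 4) + 2 * M * N)) := by
    have h1 : ∀ j ∈ range M, ∑ j' ∈ range M, ‖R j j'‖ ≤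
        N * T + 2 * Bad.card * (N * T) + M * (N * T * (δ ^ 2 / 4) + 2 * M * N) := by
      intro j hj
      refine (Finset.sum_le_sum (hRall j hj)).trans ?_
      rw [Finset.sum_add_distrib, Finset.sum_add_distrib, Finset.sum_const, card_range,
        nsmul_eq_mul, Finset.sum_ite_eq' (range M) j, if_pos hj, ← Finset.sum_filter,
        Finset.sum_const, nsmul_eq_mul]
      have h2 : ((((range M).filter fun j' => (j' - j) + (j - j') ∈ Bad).card : ℕ) : ℝ) ≤
          2 * Bad.card := by exact_mod_cast h82_count Bad M j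
      have h3 : (0 : ℝ) ≤ N * T := by positivity
      have := mul_le_mul_of_nonneg_right h2 h3
      linarith
    refine (Finset.sum_le_sum h1).trans ?_
    rw [Finset.sum_const, card_range, nsmul_eq_mul]
    ring_nf
    rfl
  -- the sums over windows
  set Wn : ℕ → ZMod N → ℂ := fun k x => ∑ j ∈ range M, v (k + j) x with hWn
  have hW1 : ∑ k ∈ Ico u (u + T), ∑ x, ‖Wn k x‖ ^ 2 ≤ ∑ j ∈ range M, ∑ j' ∈ range M, ‖R j j'‖ := by
    have h1 : ((∑ k ∈ Ico u (u + T), ∑ x, ‖Wn k x‖ ^ 2 : ℝ) : ℂ) =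
        ∑ j ∈ range M, ∑ j' ∈ range M, R j j' := by
      have h2 : ∀ k x, ((‖Wn k x‖ ^ 2 : ℝ) : ℂ) =
          ∑ j ∈ range M, ∑ j' ∈ range M, v (k + j) x * conj (v (k + j') x) := by
        intro k x
        rw [Complex.ofReal_pow, ← Complex.mul_conj', hWn, map_sum, Finset.sum_mul_sum]
      push_cast [h2]
      have h3 : ∀ k, ∑ x : ZMod N, ∑ j ∈ range M, ∑ j' ∈ range M,
          v (k + j) x * conj (v (k + j') x) = ∑ j ∈ range M, ∑ j' ∈ range M, c (k + j) (k + j') := by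
        intro k
        rw [Finset.sum_comm]
        refine Finset.sum_congr rfl fun j _ => ?_
        rw [Finset.sum_comm]
      simp only [h3]
      rw [Finset.sum_comm]
      refine Finset.sum_congr rfl fun j _ => ?_
      rw [Finset.sum_comm]
    have h2 : ‖((∑ k ∈ Ico u (u + T), ∑ x, ‖Wn k x‖ ^ 2 : ℝ) : ℂ)‖ =
        ∑ k ∈ Ico u (u + T), ∑ x, ‖Wn k x‖ ^ 2 := by
      rw [Complex.norm_real, Real.norm_of_nonneg]
      positivity
    rw [← h2, h1]
    refine (norm_sum_le _ _).trans (Finset.sum_le_sum fun j _ => norm_sum_le _ _)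
  have hcs : (∑ k ∈ Ico u (u + T), ∑ x, ‖Wn k x‖) ^ 2 ≤
      T * N * ∑ k ∈ Ico u (u + T), ∑ x, ‖Wn k x‖ ^ 2 := by
    rw [← Finset.sum_product', ← Finset.sum_product']
    refine (sq_sum_le_card_mul_sum_sq (s := Ico u (u + T) ×ˢ (univ : Finset (ZMod N)))
      (f := fun p => ‖Wn p.1 p.2‖)).trans ?_
    rw [Finset.card_product, Nat.card_Ico, Nat.add_sub_cancel_left]
    simp [ZMod.card]
  -- lower bound
  set F : ℕ → ℂ := fun k => ∑ x, f0 x * v k x with hF
  have hFb : ∀ k, ‖F k‖ ≤ N := by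
    intro k
    refine (norm_sum_le _ _).trans ?_
    rw [← hcard]
    refine Finset.sum_le_sum fun x _ => ?_
    rw [norm_mul]
    exact mul_le_one₀ (hf0 _) (norm_nonneg _) (hv _ _)
  have hlow0 : δ * (N * T) ≤ ‖∑ k ∈ Ico u (u + T), F k‖ := by
    rw [hE, le_div_iff₀ (by positivity)] at h
    exact h
  have hlow1 : ‖(∑ j ∈ range M, ∑ k ∈ Ico u (u + T), F (k + j)) -
      M * ∑ k ∈ Ico u (u + T), F k‖ ≤ M * (2 * M * N) := by
    have h1 : (∑ j ∈ range M, ∑ k ∈ Ico u (u + T), F (k + j)) -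
        M * ∑ k ∈ Ico u (u + T), F k =
        ∑ j ∈ range M, ((∑ k ∈ Ico u (u + T), F (k + j)) - ∑ k ∈ Ico u (u + T), F k) := by
      rw [Finset.sum_sub_distrib, Finset.sum_const, card_range, nsmul_eq_mul]
    rw [h1]
    refine (norm_sum_le _ _).trans ?_
    have h2 : ∀ j ∈ range M, ‖(∑ k ∈ Ico u (u + T), F (k + j)) - ∑ k ∈ Ico u (u + T), F k‖ ≤
        2 * M * N := by
      intro j hj
      refine (h82_shift F N hFb u T j).trans ?_
      have : (j : ℝ) ≤ M := by exact_mod_cast (Finset.mem_range.mp hj).le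
      nlinarith
    refine (Finset.sum_le_sum h2).trans ?_
    rw [Finset.sum_const, card_range, nsmul_eq_mul]
  have hlow2 : M * (δ * (N * T)) - M * (2 * M * N) ≤ ∑ k ∈ Ico u (u + T), ∑ x, ‖Wn k x‖ := by
    have h1 : ∑ j ∈ range M, ∑ k ∈ Ico u (u + T), F (k + j) =
        ∑ k ∈ Ico u (u + T), ∑ x, f0 x * Wn k x := by
      rw [Finset.sum_comm]
      refine Finset.sum_congr rfl fun k _ => ?_
      simp only [hF, hWn, Finset.mul_sum]
      rw [Finset.sum_comm]
    have h2 : ‖∑ j ∈ range M, ∑ k ∈ Ico u (u + T), F (k + j)‖ ≤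
        ∑ k ∈ Ico u (u + T), ∑ x, ‖Wn k x‖ := by
      rw [h1]
      refine (norm_sum_le _ _).trans (Finset.sum_le_sum fun k _ => ?_)
      refine (norm_sum_le _ _).trans (Finset.sum_le_sum fun x _ => ?_)
      rw [norm_mul]
      exact mul_le_of_le_one_left (norm_nonneg _) (hf0 x)
    have h3 : ‖(M : ℂ) * ∑ k ∈ Ico u (u + T), F k‖ ≤
        ‖∑ j ∈ range M, ∑ k ∈ Ico u (u + T), F (k + j)‖ + M * (2 * M * N) := by
      have := norm_sub_norm_le ((M : ℂ) * ∑ k ∈ Ico u (u + T), F k)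
        (∑ j ∈ range M, ∑ k ∈ Ico u (u + T), F (k + j))
      rw [norm_sub_rev] at this
      linarith
    rw [norm_mul, Complex.norm_natCast] at h3
    have h4 : M * (δ * (N * T)) ≤ M * ‖∑ k ∈ Ico u (u + T), F k‖ :=
      mul_le_mul_of_nonneg_left hlow0 hMpos.le
    linarith
  -- the contradiction
  have hδM : 1 ≤ δ ^ 2 * M / 16 := by
    rw [div_le_iff₀ (by positivity)] at hM
    rw [le_div_iff₀ (by norm_num)]
    linarith
  have hlow3 : (31 / 32) * (δ * (M * N * T)) ≤ ∑ k ∈ Ico u (u + T), ∑ x, ‖Wn k x‖ := by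
    refine le_trans ?_ hlow2
    have h1 : 2 * (M : ℝ) ≤ δ * T / 32 := by
      have : δ ^ 2 * T ≤ δ * T := by
        have : δ ^ 2 ≤ δ := by nlinarith
        exact mul_le_mul_of_nonneg_right this hTpos.le
      linarith
    have h2 : (M : ℝ) * (2 * M * N) ≤ M * (δ * T / 32 * N) := by
      refine mul_le_mul_of_nonneg_left ?_ hMpos.le
      exact mul_le_mul_of_nonneg_right h1 hNpos.le
    linarith
  have hup : T * N * ∑ k ∈ Ico u (u + T), ∑ x, ‖Wn k x‖ ^ 2 ≤
      (13 / 32) * (δ * (M * N * T)) ^ 2 := by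
    have h1 := (mul_le_mul_of_nonneg_left (hW1.trans hRsum)
      (show (0 : ℝ) ≤ T * N by positivity))
    refine h1.trans ?_
    have e1 : (M : ℝ) * (N * T) ≤ (δ ^ 2 / 16) * (M ^ 2 * N * T) := by
      have := mul_le_mul_of_nonneg_right hδM (show (0 : ℝ) ≤ M * (N * T) by positivity)
      calc (M : ℝ) * (N * T) = 1 * (M * (N * T)) := (one_mul _).symm
        _ ≤ δ ^ 2 * M / 16 * (M * (N * T)) := this
        _ = _ := by ring
    have e2 : (M : ℝ) * (2 * Bad.card * (N * T)) ≤ (δ ^ 2 / 16) * (M ^ 2 * N * T) := by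
      have := mul_le_mul_of_nonneg_right hBad (show (0 : ℝ) ≤ 2 * (M * (N * T)) by positivity)
      calc (M : ℝ) * (2 * Bad.card * (N * T)) = Bad.card * (2 * (M * (N * T))) := by ring
        _ ≤ δ ^ 2 * M / 32 * (2 * (M * (N * T))) := this
        _ = _ := by ring
    have e3 : (M : ℝ) * (M * (N * T * (δ ^ 2 / 4) + 2 * M * N)) ≤
        (δ ^ 2 / 4 + δ ^ 2 / 32) * (M ^ 2 * N * T) := by
      have := mul_le_mul_of_nonneg_right hMT (show (0 : ℝ) ≤ 2 * (M ^ 2 * N) by positivity)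
      calc (M : ℝ) * (M * (N * T * (δ ^ 2 / 4) + 2 * M * N))
          = δ ^ 2 / 4 * (M ^ 2 * N * T) + M * (2 * (M ^ 2 * N)) := by ring
        _ ≤ δ ^ 2 / 4 * (M ^ 2 * N * T) + δ ^ 2 * T / 64 * (2 * (M ^ 2 * N)) := by linarith
        _ = _ := by ring
    calc (T : ℝ) * N * (M * (N * T) + M * (2 * Bad.card * (N * T)) +
          M * (M * (N * T * (δ ^ 2 / 4) + 2 * M * N)))
        ≤ T * N * ((δ ^ 2 / 16) * (M ^ 2 * N * T) + (δ ^ 2 / 16) * (M ^ 2 * N * T) +
          (δ ^ 2 / 4 + δ ^ 2 / 32) * (M ^ 2 * N * T)) := by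
          refine mul_le_mul_of_nonneg_left ?_ (by positivity)
          linarith
      _ = _ := by ring
  have hX : 0 < δ * (M * N * T) := by positivity
  have h1 : ((31 / 32) * (δ * (M * N * T))) ^ 2 ≤
      (∑ k ∈ Ico u (u + T), ∑ x, ‖Wn k x‖) ^ 2 :=
    pow_le_pow_left₀ (by positivity) hlow3 2
  have h2 := (h1.trans hcs).trans hup
  nlinarith [pow_pos hX 2]

end

end Pool.Agent.Helper57.NX
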