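import Pool.Agent.Helper82.NX.GncC
import Pool.Agent.Helper45.NX.Round
import Pool.Agent.Helper51.NX.Sweep

/-!
# Project NX, module NX-28: the generalised von Neumann theorem
-/

set_option autoImplicit false

namespace Pool.Agent.Helper57.NX

/-- NX-28: the generalised von Neumann theorem -/
theorem gnc (m : ℕ) (c : Fin (m + 1) → ℝ) (hc : StrictMono c) (hc0 : ∀ i, 0 < c i)
    (hcn : ∀ i (n : ℕ), c i ≠ n) (εb : ℝ) (hεb : 0 < εb) :
    ∃ g0 : ℝ, 0 < g0 ∧ ∀ s : ℝ, 0 ≤ s → s ≤ c (Fin.last m) - εb → ∀ s' : ℝ, s' ≤ s + g0 →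
      GNCP m c s s' :=
  Pool.Agent.Helper82.NX.gnc_of (fun c γ hγ R s => round c γ hγ R s) sweep m c hc hc0 hcn εb hεb

end Pool.Agent.Helper57.NX
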