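import Pool.Agent.Helper57.NX.Defs3
import Pool.Agent.Helper5.NX.Basic
import Pool.Agent.Helper88.NX.BoxNorm

/-!
# Project NX: iterating the rounds
-/

set_option autoImplicit false

open Finset
open scoped BigOperators ComplexConjugate

namespace Pool.Agent.Helper82.NX

open Pool.Agent.Helper57.NX

noncomputable section

/-- the statement of NX-25 -/
def RoundS : Prop := ∀ {m : ℕ} (c : Fin m → ℝ) (γ : ℝ), γ ≠ 0 → ∀ (R s : ℕ), ∃ ν : ℕ, ∀ n B : ℕ,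
    ∃ n' : ℕ, ∀ (S : Sys m) (N : ℕ) [NeZero N] (δ Y lam w : ℝ) (M : ℕ), Env S N δ M R w n' →
      0 < lam → Y + ν * M ≤ 3 * S.D →
      ∀ (fs : ZMod N → ℂ) (g0 : Phi m) (t : List ((ZMod N → ℂ) × Phi m)), t.length ≤ s →
        Adm (δ⁻¹ ^ n) S.Q fs → (∀ fp ∈ t, Adm (δ⁻¹ ^ n) S.Q fp.1) →
        Clu S c δ M n (B + ν) (Y + ν * M) γ lam w g0 (t.map Prod.snd) →
        δ ^ n ≤ ‖lform S c 1 ((fs, g0) :: t)‖ →
        ∃ (g0' : Phi m) (t' : List ((ZMod N → ℂ) × Phi m)),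
          (∀ fp ∈ t', fp.1 = fs ∨ fp.1 = fun x => conj (fs x)) ∧ t'.length ≤ 2 ^ ν ∧
          Clu S c δ M n' B Y (γ - 1) (lam * M / S.D) w g0' (t'.map Prod.snd) ∧
          δ ^ n' ≤ ‖lform S c 1 ((fs, g0') :: t')‖

/-- the statement of NX-27 -/
def SweepS : Prop := ∀ (γ : ℝ), γ ≠ 0 → ∀ (n : ℕ), ∃ n' : ℕ, ∀ (m : ℕ) (S : Sys m)
    (c : Fin m → ℝ)
    (N : ℕ) [NeZero N] (δ Y lam w X : ℝ) (M R K : ℕ), Env S N δ M R w n' → 0 < lam →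
    5 / 2 * S.D ≤ Y → Y ≤ 3 * S.D →
    ∀ (fs : ZMod N → ℂ) (g0 : Phi m) (t : List ((ZMod N → ℂ) × Phi m)),
      Adm (δ⁻¹ ^ n) X fs → (∀ fp ∈ t, fp.1 = fs ∨ fp.1 = fun x => conj (fs x)) →
      Clu S c δ M n 2 Y γ lam w g0 (t.map Prod.snd) → n * (M : ℝ) ≤ S.D / 4 →
      δ ^ n ≤ ‖lform S c 1 ((fs, g0) :: t)‖ →
      δ⁻¹ ^ n' ≤ K → (K : ℝ) ≤ δ ^ n' * S.T → lam * (K / S.D) ^ 2 ≤ δ ^ n' * X →
      lam / S.D ≤ δ ^ n' * X → 1 ≤ δ ^ n' * X → X ≤ N → X ≤ δ ^ n' * (lam * (K / S.D)) →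
      ∀ X1 : ℕ, 1 ≤ X1 → (X1 : ℝ) ≤ δ ^ n' * (lam * (K / S.D)) →
        δ ^ n' ≤ Box t.length X1 fs

section Mono

variable {m : ℕ} {S : Sys m} {c : Fin m → ℝ} {δ : ℝ} {M : ℕ}

theorem inv_pow_mono (h0 : 0 < δ) (h1 : δ ≤ 1) {n n' : ℕ} (h : n ≤ n') : δ⁻¹ ^ n ≤ δ⁻¹ ^ n' :=
  pow_le_pow_right₀ (one_le_inv_iff₀.mpr ⟨h0, h1⟩) h

theorem pow_anti (h0 : 0 < δ) (h1 : δ ≤ 1) {n n' : ℕ} (h : n ≤ n') : δ ^ n' ≤ δ ^ n :=
  pow_le_pow_of_le_one h0.le h1 h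

theorem Env.mono {N R n n' : ℕ} {w : ℝ} (hE : Env S N δ M R w n') (h : n ≤ n') :
    Env S N δ M R w n where
  ρ0 := hE.ρ0
  ρ1 := hE.ρ1
  D1 := hE.D1
  δ0 := hE.δ0
  δ1 := hE.δ1
  u1 := hE.u1
  u2 := hE.u2
  MT := hE.MT.trans (mul_le_mul_of_nonneg_right
    (pow_anti hE.δ0 (hE.δ1.trans (by norm_num)) h) (Nat.cast_nonneg _))
  M1 := (inv_pow_mono hE.δ0 (hE.δ1.trans (by norm_num)) h).trans hE.M1
  MD := hE.MD
  w1 := hE.w1.trans (pow_anti hE.δ0 (hE.δ1.trans (by norm_num)) h)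
  P0 := hE.P0
  PR := hE.PR
  wQ := hE.wQ
  QN := hE.QN

theorem Bd.mono' {n n' : ℕ} {p : Phi m} (h : Bd M n p) (hn : n ≤ n') : Bd M n' p :=
  ⟨h.1.trans hn, fun s hs => ⟨(h.2 s hs).1.trans hn, (h.2 s hs).2⟩⟩

theorem Typ.mono' {B : ℕ} {Y : ℝ} {p : Phi m} {γ Λ E E' : ℝ} (hD : 0 < S.D)
    (h : Typ S c B Y p γ Λ E) (hE : E ≤ E') : Typ S c B Y p γ Λ E' := by
  intro b hb y h1 h2
  refine (h b hb y h1 h2).trans ?_
  exact div_le_div_of_nonneg_right hE (pow_pos hD _).le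

theorem Tp.mono' {n n' B : ℕ} {Y γ lam w : ℝ} {p : Phi m} (h0 : 0 < δ) (h1 : δ ≤ 1)
    (hD : 0 < S.D) (hl : 0 ≤ lam) (hw : 0 ≤ w) (h : Tp S c δ n B Y γ lam w p) (hn : n ≤ n') :
    Tp S c δ n' B Y γ lam w p := by
  obtain ⟨Λ, h2, h3, h4⟩ := h
  have h5 := mul_le_mul_of_nonneg_right (inv_pow_mono h0 h1 hn) hl
  refine ⟨Λ, (mul_le_mul_of_nonneg_right (pow_anti h0 h1 hn) hl).trans h2, h3.trans h5, ?_⟩
  exact Typ.mono' hD h4 (mul_le_mul_of_nonneg_right h5 hw)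

theorem Clu.mono' {n n' B : ℕ} {Y γ lam w : ℝ} {g0 : Phi m} {t : List (Phi m)} (h0 : 0 < δ)
    (h1 : δ ≤ 1) (hD : 0 < S.D) (hl : 0 ≤ lam) (hw : 0 ≤ w)
    (h : Clu S c δ M n B Y γ lam w g0 t) (hn : n ≤ n') : Clu S c δ M n' B Y γ lam w g0 t where
  g := fun g hg => Tp.mono' h0 h1 hD hl hw (h.g g hg) hn
  b0 := Bd.mono' h.b0 hn
  bt := fun g hg => Bd.mono' (h.bt g hg) hn
  ne := h.ne
  le := h.le.trans hn

theorem Adm.mono' {N : ℕ} {B B' X : ℝ} {f : ZMod N → ℂ} (h : Adm B X f) (hX : 0 < X)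
    (hB : B ≤ B') : Adm B' X f := by
  refine ⟨h.bdd, fun x l => (h.tv x l).trans ?_⟩
  exact mul_le_mul_of_nonneg_right hB (by positivity)

theorem Adm.conj' {N : ℕ} {B X : ℝ} {f : ZMod N → ℂ} (h : Adm B X f) :
    Adm B X fun x => conj (f x) := by
  refine ⟨fun x => ?_, fun x l => ?_⟩
  · rw [RCLike.norm_conj]
    exact h.bdd x
  · refine le_trans (le_of_eq ?_) (h.tv x l)
    refine Finset.sum_congr rfl fun j _ => ?_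
    rw [← map_sub, RCLike.norm_conj]

end Mono

/-- `j` rounds. -/
theorem rounds (hR : RoundS) {m : ℕ} (c : Fin m → ℝ) (γ : ℝ) (R : ℕ) (j : ℕ)
    (hγ : ∀ i : ℕ, i < j → γ - i ≠ 0) (s : ℕ) : ∃ ν s' : ℕ, ∀ n B : ℕ,
    ∃ n' : ℕ, n ≤ n' ∧ ∀ (S : Sys m) (N : ℕ) [NeZero N] (δ Y lam w : ℝ) (M : ℕ),
      Env S N δ M R w n' → 0 < S.Q → 0 ≤ w →
      0 < lam → Y + ν * M ≤ 3 * S.D →
      ∀ (fs : ZMod N → ℂ) (g0 : Phi m) (t : List ((ZMod N → ℂ) × Phi m)), t.length ≤ s →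
        Adm (δ⁻¹ ^ n) S.Q fs → (∀ fp ∈ t, Adm (δ⁻¹ ^ n) S.Q fp.1) →
        Clu S c δ M n (B + ν) (Y + ν * M) γ lam w g0 (t.map Prod.snd) →
        δ ^ n ≤ ‖lform S c 1 ((fs, g0) :: t)‖ →
        ∃ (g0' : Phi m) (t' : List ((ZMod N → ℂ) × Phi m)),
          (∀ fp ∈ t', Adm (δ⁻¹ ^ n) S.Q fp.1) ∧
          (1 ≤ j → ∀ fp ∈ t', fp.1 = fs ∨ fp.1 = fun x => conj (fs x)) ∧ t'.length ≤ s' ∧
          Clu S c δ M n' B Y (γ - j) (lam * (M / S.D) ^ j) w g0' (t'.map Prod.snd) ∧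
          δ ^ n' ≤ ‖lform S c 1 ((fs, g0') :: t')‖ := by
  induction j with
  | zero =>
    refine ⟨0, s, fun n B => ⟨n, le_rfl, ?_⟩⟩
    intro S N _ δ Y lam w M hE hQ hw hlam hY fs g0 t hts hfs ht hC hl
    refine ⟨g0, t, ht, fun h => absurd h (by norm_num), hts, ?_, hl⟩
    simpa using hC
  | succ j ih =>
    obtain ⟨ν₁, s₁, h₁⟩ := ih fun i hi => hγ i (by omega)
    obtain ⟨ν₂, h₂⟩ := hR c (γ - j) (hγ j (by omega)) R s₁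
    refine ⟨ν₁ + ν₂, 2 ^ ν₂, fun n B => ?_⟩
    obtain ⟨n₁, hn₁, h₁⟩ := h₁ n (B + ν₂)
    obtain ⟨n₂, h₂⟩ := h₂ n₁ B
    refine ⟨max n₁ n₂, hn₁.trans (le_max_left _ _), ?_⟩
    intro S N _ δ Y lam w M hE hQ hw hlam hY fs g0 t hts hfs ht hC hl
    have hD : 0 < S.D := lt_of_lt_of_le one_pos hE.D1
    have hδ1 : δ ≤ 1 := hE.δ1.trans (by norm_num)
    have hQ' : (0 : ℝ) < S.Q := by exact_mod_cast hQ
    have hMpos : (0 : ℝ) < M := lt_of_lt_of_le (pow_pos (inv_pos.mpr hE.δ0) _) hE.M1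
    have e1 : Y + ν₂ * M + ν₁ * M = Y + ((ν₁ + ν₂ : ℕ) : ℝ) * M := by push_cast; ring
    have e2 : B + ν₂ + ν₁ = B + (ν₁ + ν₂) := by omega
    obtain ⟨g1, t1, a1, _, a3, a4, a5⟩ := h₁ S N δ (Y + ν₂ * M) lam w M
      (Env.mono hE (le_max_left _ _)) hQ hw hlam (by rw [e1]; exact hY) fs g0 t hts hfs ht
      (by rw [e1, e2]; exact hC) hl
    have hlam1 : 0 < lam * (M / S.D) ^ j := by positivity
    have hY2 : Y + ν₂ * M ≤ 3 * S.D := by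
      refine le_trans ?_ hY
      push_cast
      have : (0 : ℝ) ≤ ν₁ * M := by positivity
      linarith
    have hfs1 : Adm (δ⁻¹ ^ n₁) S.Q fs := Adm.mono' hfs hQ' (inv_pow_mono hE.δ0 hδ1 hn₁)
    obtain ⟨g2, t2, b1, b2, b3, b4⟩ := h₂ S N δ Y (lam * (M / S.D) ^ j) w M
      (Env.mono hE (le_max_right _ _)) hlam1 hY2 fs g1 t1 a3 hfs1
      (fun fp hfp => Adm.mono' (a1 fp hfp) hQ' (inv_pow_mono hE.δ0 hδ1 hn₁)) a4 a5
    have e3 : lam * (M / S.D) ^ j * M / S.D = lam * (M / S.D) ^ (j + 1) := by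
      rw [pow_succ]; ring
    have e4 : γ - (j : ℝ) - 1 = γ - ((j + 1 : ℕ) : ℝ) := by push_cast; ring
    rw [e3, e4] at b3
    refine ⟨g2, t2, ?_, fun _ => b1, b2, ?_, ?_⟩
    · intro fp hfp
      rcases b1 fp hfp with h | h
      · rw [h]; exact hfs
      · rw [h]; exact Adm.conj' hfs
    · exact Clu.mono' hE.δ0 hδ1 hD (by positivity) hw b3 (le_max_right _ _)
    · exact (pow_anti hE.δ0 hδ1 (le_max_right _ _)).trans b4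

theorem Box_pow {N : ℕ} [NeZero N] (k X : ℕ) (hX : 1 ≤ X) {f : ZMod N → ℂ}
    (hf : ∀ x, ‖f x‖ ≤ 1) {δ : ℝ} (h0 : 0 < δ) (h1 : δ ≤ 1) (n j : ℕ) (h : δ ^ n ≤ Box k X f) :
    δ ^ (n * 2 ^ j) ≤ Box (k + j) X f := by
  induction j with
  | zero => simpa using h
  | succ j ih =>
    refine le_trans ?_ (Box_succ_ge (k + j) X hX hf)
    have h2 := pow_le_pow_left₀ (pow_pos h0 _).le ih 2
    rwa [← pow_mul, mul_assoc, ← pow_succ] at h2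

theorem Box_raise {N : ℕ} [NeZero N] (k r X : ℕ) (hk : k ≤ r) (hX : 1 ≤ X) {f : ZMod N → ℂ}
    (hf : ∀ x, ‖f x‖ ≤ 1) {δ : ℝ} (h0 : 0 < δ) (h1 : δ ≤ 1) (n : ℕ) (h : δ ^ n ≤ Box k X f) :
    δ ^ (n * 2 ^ r) ≤ Box r X f := by
  have h2 := Box_pow k X hX hf h0 h1 n (r - k) h
  rw [Nat.add_sub_cancel' hk] at h2
  refine le_trans (pow_anti h0 h1 ?_) h2
  exact Nat.mul_le_mul_left _ (Nat.pow_le_pow_right (by norm_num) (Nat.sub_le _ _))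

/-- The form as a form of a list. -/
theorem form_eq_lform {m N : ℕ} [NeZero N] (S : Sys (m + 1)) (c : Fin (m + 1) → ℝ)
    (f0 : ZMod N → ℂ) (f : Fin (m + 1) → ZMod N → ℂ) :
    form S c 1 f0 f = lform S c 1 ((f (Fin.last m), Finsupp.single ([], Fin.last m) 1) ::
      (f0, 0) :: List.ofFn fun i : Fin m =>
        (f i.castSucc, (Finsupp.single (([] : List ℕ), i.castSucc) (1 : ℤ) : Phi (m + 1)))) := by
  unfold form lform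
  refine Finset.expect_congr rfl fun k _ => ?_
  rw [Pi.one_apply, one_mul]
  refine Finset.expect_congr rfl fun x _ => ?_
  have h1 : ∀ i, ev (S.a c) (Finsupp.single (([] : List ℕ), i) (1 : ℤ)) k = S.a c i k := by
    intro i
    simp [ev, dl]
  have h2 : ev (S.a c) (0 : Phi (m + 1)) k = 0 := by simp [ev]
  rw [Pi.one_apply, one_mul, List.map_cons, List.map_cons, List.prod_cons, List.prod_cons,
    List.map_ofFn, List.prod_ofFn, Fin.prod_univ_castSucc]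
  simp only [Function.comp, h1, h2, Int.cast_zero, add_zero]
  ring

end

end Pool.Agent.Helper82.NX
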