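import Pool.Agent.Helper82.NX.GncA

/-!
# Project NX: the initial cluster
-/

set_option autoImplicit false

open Finset
open scoped BigOperators ComplexConjugate

namespace Pool.Agent.Helper82.NX

open Pool.Agent.Helper57.NX

noncomputable section

theorem mdl_bound' {m : ℕ} (S : Sys m) (γ : ℝ) (b : ℕ) (hD : 1 ≤ S.D) (hρ0 : 0 ≤ S.ρ)
    (hρ1 : S.ρ ≤ 1) (y : ℝ) (h1 : S.D ≤ y) (h2 : y ≤ 4 * S.D) :
    |mdl S γ b y| ≤ |ff γ b| * 5 ^ |γ - b| / S.D ^ b := by
  have hD0 : 0 < S.D := lt_of_lt_of_le one_pos hD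
  have ht1 : 1 ≤ (y + S.ρ) / S.D := by
    rw [le_div_iff₀ hD0]
    linarith
  have ht2 : (y + S.ρ) / S.D ≤ 5 := by
    rw [div_le_iff₀ hD0]
    linarith
  unfold mdl
  rw [abs_div, abs_mul, abs_of_pos (pow_pos hD0 b)]
  refine div_le_div_of_nonneg_right ?_ (pow_pos hD0 b).le
  refine mul_le_mul_of_nonneg_left ?_ (abs_nonneg _)
  rw [abs_of_nonneg (Real.rpow_nonneg (by linarith) _)]
  refine (Real.rpow_le_rpow_of_exponent_le ht1 (le_abs_self _)).trans ?_
  exact Real.rpow_le_rpow (by linarith) ht2 (abs_nonneg _)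

theorem jet_sub' {m : ℕ} (S : Sys m) (c : Fin m → ℝ) (b : ℕ) (p q : Phi m) (y : ℝ) :
    jet S c b (p - q) y = jet S c b p y - jet S c b q y := by
  unfold jet
  refine Finsupp.sum_sub_index ?_
  intro s b1 b2
  push_cast
  ring

theorem jet_single' {m : ℕ} (S : Sys m) (c : Fin m → ℝ) (b : ℕ) (i : Fin m) (y : ℝ) :
    jet S c b (Finsupp.single (([] : List ℕ), i) (1 : ℤ)) y = S.P i * mdl S (c i) b y := by
  simp [jet, dlR]

theorem jet_zero' {m : ℕ} (S : Sys m) (c : Fin m → ℝ) (b : ℕ) (y : ℝ) :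
    jet S c b (0 : Phi m) y = 0 := by
  simp [jet]

theorem Bd_single' {m : ℕ} (M n : ℕ) (hn : 1 ≤ n) (i : Fin m) :
    Bd M n (Finsupp.single (([] : List ℕ), i) (1 : ℤ)) := by
  have h1 : (Finsupp.single (([] : List ℕ), i) (1 : ℤ)).support = {(([] : List ℕ), i)} :=
    Finsupp.support_single_ne_zero _ one_ne_zero
  refine ⟨?_, ?_⟩
  · rw [h1, Finset.sum_singleton, Finsupp.single_eq_same]
    exact hn
  · intro s hs
    rw [h1, Finset.mem_singleton] at hs
    subst hs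
    exact ⟨Nat.zero_le _, fun h hh => absurd hh (List.not_mem_nil)⟩

theorem Bd_zero' {m : ℕ} (M n : ℕ) : Bd M n (0 : Phi m) := by
  refine ⟨by simp, by simp⟩

theorem init_clu {m : ℕ} (c : Fin (m + 1) → ℝ) (B : ℕ) : ∃ C0 : ℝ, 0 ≤ C0 ∧
    ∀ S : Sys (m + 1), 1 ≤ S.D → 0 ≤ S.ρ → S.ρ ≤ 1 → ∀ (δ : ℝ) (M : ℕ) (Y w : ℝ), 0 < δ → δ ≤ 1 →
      Y ≤ 4 * S.D → 0 ≤ w → 0 ≤ S.P (Fin.last m) →
      (∀ i : Fin m, 0 ≤ S.P i.castSucc ∧ C0 * S.P i.castSucc ≤ S.P (Fin.last m) * w) →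
      Clu S c δ M (m + 1) B Y (c (Fin.last m)) (S.P (Fin.last m)) w
        (Finsupp.single ([], Fin.last m) 1)
        (0 :: List.ofFn fun i : Fin m =>
          (Finsupp.single (([] : List ℕ), i.castSucc) (1 : ℤ) : Phi (m + 1))) := by
  refine ⟨∑ i : Fin m, ∑ b ∈ range (B + 1), |ff (c i.castSucc) b| * 5 ^ |c i.castSucc - b|,
    Finset.sum_nonneg fun i _ => Finset.sum_nonneg fun b _ => by positivity, ?_⟩
  intro S hD hρ0 hρ1 δ M Y w hδ0 hδ1 hY hw hP hPi
  have hD0 : 0 < S.D := lt_of_lt_of_le one_pos hD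
  have hinv : 1 ≤ δ⁻¹ ^ (m + 1) := one_le_pow₀ (one_le_inv_iff₀.mpr ⟨hδ0, hδ1⟩)
  have hpow : δ ^ (m + 1) ≤ 1 := pow_le_one₀ hδ0.le hδ1
  -- the typing
  have key : ∀ g : Phi (m + 1), (∀ b ≤ B, ∀ y : ℝ, S.D ≤ y → y ≤ Y →
      |jet S c b g y| ≤ S.P (Fin.last m) * w / S.D ^ b) →
      Tp S c δ (m + 1) B Y (c (Fin.last m)) (S.P (Fin.last m)) w
        (g - Finsupp.single ([], Fin.last m) 1) := by
    intro g hg
    refine ⟨-S.P (Fin.last m), ?_, ?_, ?_⟩
    · rw [abs_neg, abs_of_nonneg hP]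
      exact mul_le_of_le_one_left hP hpow
    · rw [abs_neg, abs_of_nonneg hP]
      exact le_mul_of_one_le_left hP hinv
    · intro b hb y h1 h2
      rw [jet_sub', jet_single']
      have e : jet S c b g y - S.P (Fin.last m) * mdl S (c (Fin.last m)) b y -
          -S.P (Fin.last m) * mdl S (c (Fin.last m)) b y = jet S c b g y := by ring
      rw [e]
      refine (hg b hb y h1 h2).trans (div_le_div_of_nonneg_right ?_ (pow_pos hD0 b).le)
      rw [mul_assoc]
      exact le_mul_of_one_le_left (mul_nonneg hP hw) hinv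
  refine ⟨?_, Bd_single' _ _ (by omega) _, ?_, by simp, by simp⟩
  · intro g hg
    rw [List.mem_cons, List.mem_ofFn] at hg
    rcases hg with rfl | ⟨i, rfl⟩
    · refine key 0 fun b _ y _ _ => ?_
      rw [jet_zero', abs_zero]
      positivity
    · refine key _ fun b hb y h1 h2 => ?_
      rw [jet_single', abs_mul, abs_of_nonneg (hPi i).1]
      have h3 := mdl_bound' S (c i.castSucc) b hD hρ0 hρ1 y h1 (h2.trans hY)
      have h4 : |ff (c i.castSucc) b| * 5 ^ |c i.castSucc - b| ≤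
          ∑ i : Fin m, ∑ b ∈ range (B + 1), |ff (c i.castSucc) b| * 5 ^ |c i.castSucc - b| := by
        refine le_trans ?_ (Finset.single_le_sum (f := fun i : Fin m =>
          ∑ b ∈ range (B + 1), |ff (c i.castSucc) b| * 5 ^ |c i.castSucc - (b : ℝ)|)
          (fun j _ => Finset.sum_nonneg fun b _ => by positivity) (Finset.mem_univ i))
        exact Finset.single_le_sum (f := fun b : ℕ =>
          |ff (c i.castSucc) b| * 5 ^ |c i.castSucc - (b : ℝ)|)
          (fun b _ => by positivity) (Finset.mem_range.mpr (by omega))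
      calc S.P i.castSucc * |mdl S (c i.castSucc) b y|
          ≤ S.P i.castSucc * (|ff (c i.castSucc) b| * 5 ^ |c i.castSucc - b| / S.D ^ b) :=
            mul_le_mul_of_nonneg_left h3 (hPi i).1
        _ = (|ff (c i.castSucc) b| * 5 ^ |c i.castSucc - b|) * S.P i.castSucc / S.D ^ b := by ring
        _ ≤ _ := by
            refine div_le_div_of_nonneg_right ?_ (pow_pos hD0 b).le
            exact (mul_le_mul_of_nonneg_right h4 (hPi i).1).trans (hPi i).2
  · intro g hg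
    rw [List.mem_cons, List.mem_ofFn] at hg
    rcases hg with rfl | ⟨i, rfl⟩
    · exact Bd_zero' _ _
    · exact Bd_single' _ _ (by omega) _

end

end Pool.Agent.Helper82.NX
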